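import Pool.Agent.H18.Cl3
import Pool.Agent.H18.Cl5

namespace Pool.Agent.Results.MP_c8d5ab_co.AllK

open Pool.Agent.H18.Cl

theorem result (k : ℕ) : ∃ (N : ℕ) (x : ℕ → Fin N), Aperiodic x ∧ PureMorphic x ∧
    Filter.liminf (cl x) Filter.atTop = (k : ℕ∞) := by
  cases k with
  | zero => exact ⟨4, case0⟩
  | succ k => exact ⟨k + 2, case1 k⟩

end Pool.Agent.Results.MP_c8d5ab_co.AllK
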